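import Mathlib

/-!
# Module Sc: sums of computable functions
-/

set_option autoImplicit false

namespace Pool.Agent.DD

/-- The sum of the first values. -/
def Sg (g : ℕ → ℕ) (n : ℕ) : ℕ := Nat.rec 0 (fun y s => s + g y) n

theorem Sg_succ (g : ℕ → ℕ) (n : ℕ) : Sg g (n + 1) = Sg g n + g n := rfl

theorem Sg_comp {g : ℕ → ℕ} (hg : Computable g) : Computable (Sg g) := by
  have h1 : Computable₂ (fun (_ : ℕ) (p : ℕ × ℕ) => p.2 + g p.1) :=
    Primrec.nat_add.to_comp.comp (Computable.snd.comp Computable.snd)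
      (hg.comp (Computable.fst.comp Computable.snd))
  exact Computable.nat_rec Computable.id (Computable.const 0) h1

theorem Sg_mono (g : ℕ → ℕ) : Monotone (Sg g) :=
  monotone_nat_of_le_succ fun n => by rw [Sg_succ]; omega

theorem le_Sg (g : ℕ → ℕ) {a n : ℕ} (h : a < n) : g a ≤ Sg g n := by
  have h1 := Sg_mono g (Nat.succ_le_of_lt h)
  rw [Nat.succ_eq_add_one, Sg_succ] at h1
  omega

/-- The bound. -/
theorem bnd_comp {g : ℕ → ℕ} (hg : Computable g) : Computable (fun i => Sg g ((i + 1) * (i + 1))) := by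
  have h1 : Computable (fun i : ℕ => (i + 1) * (i + 1)) :=
    (Primrec.nat_mul.comp Primrec.succ Primrec.succ).to_comp
  exact (Sg_comp hg).comp h1

end Pool.Agent.DD
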