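import Pool.Agent.H.MP_b2838e_lc.Def

/-!
# Module Ss: colourings which force infinitely many late pieces
-/

set_option autoImplicit false

namespace Pool.Agent.DD

open Pool.Agent.DR

theorem inf_le {x : ℕ → ℕ} (hx : InfPart x) (n : ℕ) : x n ≤ n := by
  induction n using Nat.strong_induction_on with
  | _ n ih =>
    rcases Nat.eq_zero_or_pos (x n) with h | h
    · omega
    · obtain ⟨m, hm, e⟩ := hx.1 n (x n - 1) (by omega)
      have := ih m hm
      omega

/-- The merging of all pieces except the piece `i`. -/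
def two (x : ℕ → ℕ) (i n : ℕ) : ℕ := if x n = i then 1 else 0

theorem two_kpart {x : ℕ → ℕ} (hx : InfPart x) {i : ℕ} (hi : 1 ≤ i) : KPart 2 (two x i) := by
  have h0 : x 0 = 0 := by have := inf_le hx 0; omega
  have h1 : two x i 0 = 0 := by
    unfold two
    rw [if_neg (by omega)]
  refine ⟨fun n j hj => ?_, fun n => ?_, fun j hj => ?_⟩
  · have h2 : two x i n ≤ 1 := by
      unfold two
      split_ifs <;> omega
    have h3 : j = 0 := by omega
    have h4 : n ≠ 0 := by
      intro h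
      rw [h, h1] at hj
      omega
    exact ⟨0, by omega, by rw [h1, h3]⟩
  · unfold two
    split_ifs <;> omega
  · rcases Nat.eq_zero_or_pos j with h | h
    · exact ⟨0, by rw [h1, h]⟩
    · have h3 : j = 1 := by omega
      obtain ⟨n, hn⟩ := hx.2 i
      refine ⟨n, ?_⟩
      unfold two
      rw [if_pos hn, h3]

theorem two_coarser (x : ℕ → ℕ) (i : ℕ) : Coarser (two x i) x := by
  intro m n h
  unfold two
  rw [h]

/-- The ends of the blocks. -/
def Gb (g : ℕ → ℕ) : ℕ → ℕ
  | 0 => 0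
  | n + 1 => Gb g n + g (Gb g n) + 1

theorem Gb_lt (g : ℕ → ℕ) (n : ℕ) : Gb g n < Gb g (n + 1) := by
  show Gb g n < Gb g n + g (Gb g n) + 1
  omega

theorem Gb_mono (g : ℕ → ℕ) : StrictMono (Gb g) := strictMono_nat_of_lt_succ (Gb_lt g)

/-- The block of a number. -/
def blk (g : ℕ → ℕ) (t : ℕ) : ℕ := Nat.findGreatest (fun n => Gb g n ≤ t) t

theorem blk_eq (g : ℕ → ℕ) {n t : ℕ} (h1 : Gb g n ≤ t) (h2 : t < Gb g (n + 1)) : blk g t = n := by
  have h3 : n ≤ t := (Gb_mono g).le_apply.trans h1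
  have h4 : n ≤ blk g t := Nat.le_findGreatest h3 h1
  have h5 : Gb g (blk g t) ≤ t := by
    unfold blk
    exact Nat.findGreatest_spec (P := fun n => Gb g n ≤ t) h3 h1
  by_contra h6
  have h7 : n + 1 ≤ blk g t := by omega
  have h8 := (Gb_mono g).monotone h7
  omega

/-- The colour is the block of the beginning of the second piece, modulo `l + 1`. -/
noncomputable def colS (g : ℕ → ℕ) (l : ℕ) (y : ℕ → ℕ) : Fin (l + 1) :=
  ⟨blk g (sInf {n | y n = 1}) % (l + 1), Nat.mod_lt _ (Nat.succ_pos l)⟩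

theorem colS_cont (g : ℕ → ℕ) (l : ℕ) : Cont 2 (colS g l) := by
  intro y hy
  have hne : {n | y n = 1}.Nonempty := hy.2.2 1 (by omega)
  refine ⟨sInf {n | y n = 1} + 1, fun z hz h => ?_⟩
  have h1 : y (sInf {n | y n = 1}) = 1 := Nat.sInf_mem hne
  have h2 : sInf {n | z n = 1} = sInf {n | y n = 1} := by
    have h3 : z (sInf {n | y n = 1}) = 1 := by rw [h _ (Nat.lt_succ_self _), h1]
    have h4 : sInf {n | z n = 1} ≤ sInf {n | y n = 1} := Nat.sInf_le h3
    have h5 : z (sInf {n | z n = 1}) = 1 := Nat.sInf_mem (s := {n | z n = 1}) ⟨_, h3⟩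
    have h6 : y (sInf {n | z n = 1}) = 1 := by rw [← h _ (Nat.lt_succ_of_le h4), h5]
    exact le_antisymm h4 (Nat.sInf_le h6)
  refine Fin.ext ?_
  show blk g (sInf {n | z n = 1}) % (l + 1) = blk g (sInf {n | y n = 1}) % (l + 1)
  rw [h2]

/-- For any `l` homogeneous partitions there are infinitely many `i` such that none of them has an
element `≤ g i` in its piece `i`. -/
theorem sharp (g : ℕ → ℕ) (l : ℕ) : ∃ c : (ℕ → ℕ) → Fin (l + 1), Cont 2 c ∧
    ∀ x : Fin l → ℕ → ℕ, (∀ j, ∃ i, Homog 2 c (x j) i) →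
      ∀ i₀, ∃ i ≥ i₀, ∀ j, ∀ n ≤ g i, x j n ≠ i := by
  refine ⟨colS g l, colS_cont g l, fun x hx i₀ => ?_⟩
  choose col hcol using hx
  have hr : ∃ r : Fin (l + 1), ∀ j, col j ≠ r := by
    by_contra hc
    push Not at hc
    have h1 : Function.Surjective col := hc
    have h2 := Fintype.card_le_of_surjective col h1
    simp at h2
  obtain ⟨r, hr⟩ := hr
  obtain ⟨n, hn⟩ : ∃ n, n = (l + 1) * (i₀ + 1) + r.val := ⟨_, rfl⟩
  have hnr : n % (l + 1) = r.val := by
    rw [hn, Nat.mul_add_mod, Nat.mod_eq_of_lt r.isLt]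
  have hni : i₀ + 1 ≤ n := by
    rw [hn]
    nlinarith [Nat.zero_le (l * (i₀ + 1))]
  have hG : n ≤ Gb g n := (Gb_mono g).le_apply
  refine ⟨Gb g n, by omega, fun j t ht e => ?_⟩
  have hx := (hcol j).1
  obtain ⟨s, hs⟩ : ∃ s, s = sInf {m | x j m = Gb g n} := ⟨_, rfl⟩
  have hs1 : x j s = Gb g n := by
    rw [hs]
    exact Nat.sInf_mem (s := {m | x j m = Gb g n}) ⟨t, e⟩
  have hs2 : s ≤ t := by
    rw [hs]
    exact Nat.sInf_le e
  have hs3 : Gb g n ≤ s := by
    have := inf_le hx s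
    omega
  have hs4 : s < Gb g (n + 1) := by
    show s < Gb g n + g (Gb g n) + 1
    omega
  have h1 := (hcol j).2 (two (x j) (Gb g n)) (two_kpart hx (by omega)) (two_coarser _ _)
  have h2 : {m | two (x j) (Gb g n) m = 1} = {m | x j m = Gb g n} := by
    ext m
    show two (x j) (Gb g n) m = 1 ↔ x j m = Gb g n
    unfold two
    constructor
    · intro h
      by_contra h3
      rw [if_neg h3] at h
      omega
    · intro h
      rw [if_pos h]
  have h3 : (colS g l (two (x j) (Gb g n))).val = r.val := by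
    show blk g (sInf {m | two (x j) (Gb g n) m = 1}) % (l + 1) = r.val
    rw [h2, ← hs, blk_eq g hs3 hs4, hnr]
  exact hr j (by rw [← h1]; exact Fin.ext h3)

end Pool.Agent.DD
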