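import Pool.Agent.H.MP_b2838e_lc.B.Bd
import Pool.Agent.H.MP_b2838e_lc.C.RSg
import Pool.Agent.H.MP_b2838e_lc.C.VFin
import Pool.Agent.H.MP_b2838e_lc.D.Sc
import Pool.Agent.H.MP_b2838e_lc.D.Ss

/-!
# Module Sp: the colour classes of a reduced colouring of the partitions into two pieces
-/

set_option autoImplicit false

namespace Pool.Agent.DD

open Pool.Agent.DR Pool.Agent.DB Pool.Agent.DC

/-- The pieces with a number in `p` are kept, the others are merged with the piece `0`. -/
def mrg (p : ℕ → Prop) [DecidablePred p] (x : ℕ → ℕ) (n : ℕ) : ℕ :=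
  if p (x n) then Nat.count p (x n) + 1 else 0

theorem mrg_pos {p : ℕ → Prop} [DecidablePred p] {x : ℕ → ℕ} {n : ℕ} (h : p (x n)) :
    mrg p x n = Nat.count p (x n) + 1 := by
  unfold mrg
  rw [if_pos h]

theorem mrg_neg {p : ℕ → Prop} [DecidablePred p] {x : ℕ → ℕ} {n : ℕ} (h : ¬ p (x n)) :
    mrg p x n = 0 := by
  unfold mrg
  rw [if_neg h]

theorem mrg_nth {p : ℕ → Prop} [DecidablePred p] (hp : (setOf p).Infinite) {x : ℕ → ℕ} {n i : ℕ}
    (h : x n = Nat.nth p i) : mrg p x n = i + 1 := by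
  have h1 : p (x n) := by
    rw [h]
    exact Nat.nth_mem_of_infinite hp i
  rw [mrg_pos h1, h, Nat.count_nth_of_infinite hp]

theorem mrg_inf {p : ℕ → Prop} [DecidablePred p] (hp : (setOf p).Infinite) (hp0 : ¬ p 0)
    {x : ℕ → ℕ} (hx : InfPart x) : InfPart (mrg p x) := by
  have h0 : x 0 = 0 := by have := inf_le hx 0; omega
  have h1 : mrg p x 0 = 0 := mrg_neg (by rw [h0]; exact hp0)
  refine ⟨fun n i hi => ?_, fun i => ?_⟩
  · rcases Nat.eq_zero_or_pos i with h | h
    · refine ⟨0, ?_, by rw [h1, h]⟩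
      rcases Nat.eq_zero_or_pos n with h2 | h2
      · rw [h2, h1] at hi
        omega
      · exact h2
    · have h2 : p (x n) := by
        by_contra h3
        rw [mrg_neg h3] at hi
        omega
      rw [mrg_pos h2] at hi
      have h3 : Nat.nth p (i - 1) < x n := Nat.nth_lt_of_lt_count (by omega)
      obtain ⟨m, hm, e⟩ := hx.1 n _ h3
      exact ⟨m, hm, by rw [mrg_nth hp e]; omega⟩
  · rcases Nat.eq_zero_or_pos i with h | h
    · exact ⟨0, by rw [h1, h]⟩
    · obtain ⟨n, hn⟩ := hx.2 (Nat.nth p (i - 1))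
      exact ⟨n, by rw [mrg_nth hp hn]; omega⟩

theorem mrg_hom {l : ℕ} {c : (ℕ → ℕ) → Fin l} {x : ℕ → ℕ} (hx : InfPart x)
    (hred : ∀ y z t, KPart 2 y → KPart 2 z → Coarser y x → Coarser z x → (∀ n ≤ t, y n = z n) →
      (∀ i < 2, ∃ n ≤ t, y n = i) → c y = c z) (j : Fin l)
    {p : ℕ → Prop} [DecidablePred p] (hpj : ∀ a, p a → 1 ≤ a ∧ c (two x a) = j)
    (hp : (setOf p).Infinite) : Homog 2 c (mrg p x) j := by
  have hp0 : ¬ p 0 := fun h => by have := (hpj 0 h).1; omega
  have h0 : x 0 = 0 := by have := inf_le hx 0; omega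
  have h1 : mrg p x 0 = 0 := mrg_neg (by rw [h0]; exact hp0)
  refine ⟨mrg_inf hp hp0 hx, fun y hy hyc => ?_⟩
  have hyx : Coarser y x := by
    intro m n h
    refine hyc m n ?_
    unfold mrg
    rw [h]
  have hy0 : y 0 = 0 := by
    by_contra h
    obtain ⟨m, hm, -⟩ := hy.1 0 0 (Nat.pos_of_ne_zero h)
    omega
  obtain ⟨s, hs⟩ : ∃ s, s = sInf {n | y n = 1} := ⟨_, rfl⟩
  have hs1 : y s = 1 := by
    rw [hs]
    exact Nat.sInf_mem (s := {n | y n = 1}) (hy.2.2 1 (by omega))
  have hs2 : ∀ n < s, y n = 0 := by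
    intro n hn
    have h2 := hy.2.1 n
    by_contra h3
    have h4 : y n = 1 := by omega
    have h5 : s ≤ n := by
      rw [hs]
      exact Nat.sInf_le h4
    omega
  have hpa : p (x s) := by
    by_contra h
    have h2 := hyc s 0 (by rw [mrg_neg h, h1])
    omega
  obtain ⟨ha, hj⟩ := hpj _ hpa
  rw [← hj]
  refine hred y (two x (x s)) s hy (two_kpart hx ha) hyx (two_coarser _ _) ?_ ?_
  · intro n hn
    rcases Nat.lt_or_ge n s with h | h
    · have h2 : x n ≠ x s := fun e => by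
        have h3 := hyx n s e
        have h4 := hs2 n h
        omega
      rw [hs2 n h]
      unfold two
      rw [if_neg h2]
    · have h2 : n = s := by omega
      rw [h2, hs1]
      unfold two
      rw [if_pos rfl]
  · intro i hi
    rcases Nat.eq_zero_or_pos i with h | h
    · exact ⟨0, Nat.zero_le s, by rw [hy0, h]⟩
    · exact ⟨s, le_rfl, by omega⟩

theorem many : ∃ g : ℕ → ℕ, Computable g ∧ ∀ (l : ℕ) (c : (ℕ → ℕ) → Fin l), Bor 2 c →
    ∃ x : Fin l → ℕ → ℕ, (∀ j, ∃ i, Homog 2 c (x j) i) ∧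
      ∃ i₀, ∀ i ≥ i₀, ∃ j, ∃ n ≤ g i, x j n = i := by
  classical
  obtain ⟨g, hgc, hg⟩ := reductionV
  refine ⟨fun i => Sg g ((i + 1) * (i + 1)), bnd_comp hgc, fun l c hc => ?_⟩
  obtain ⟨x, hx, ⟨i₀, hi₀⟩, hred⟩ := hg 2 l c (cls_of_bor hc)
  obtain ⟨p, hp⟩ : ∃ p : Fin l → ℕ → Prop, p = fun j a => 1 ≤ a ∧ c (two x a) = j := ⟨_, rfl⟩
  have hpj : ∀ j a, p j a → 1 ≤ a ∧ c (two x a) = j := by
    intro j a h
    rw [hp] at h
    exact h
  have hC : ∀ j, ∃ C, ¬ (setOf (p j)).Infinite → ∀ m, Nat.count (p j) m ≤ C := by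
    intro j
    by_cases h : (setOf (p j)).Infinite
    · exact ⟨0, fun h1 => absurd h h1⟩
    · have h1 : (setOf (p j)).Finite := Set.not_infinite.1 h
      refine ⟨h1.toFinset.card, fun _ m => ?_⟩
      rw [Nat.count_eq_card_filter_range]
      refine Finset.card_le_card fun a ha => ?_
      rw [Set.Finite.mem_toFinset]
      exact (Finset.mem_filter.1 ha).2
  choose C hC using hC
  have hsum : ∀ m, m ≤ ∑ j, Nat.count (p j) m + 1 := by
    intro m
    induction m with
    | zero => omega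
    | succ m ih =>
      rcases Nat.eq_zero_or_pos m with h | h
      · rw [h]
        omega
      · have h1 : ∑ j, Nat.count (p j) m < ∑ j, Nat.count (p j) (m + 1) := by
          refine Finset.sum_lt_sum (fun j _ => Nat.count_monotone _ (Nat.le_succ m))
            ⟨c (two x m), Finset.mem_univ _, ?_⟩
          have h2 : p (c (two x m)) m := by
            rw [hp]
            exact ⟨h, rfl⟩
          rw [Nat.count_succ, if_pos h2]
          omega
        omega
  have key : ∀ i, ∃ j, (setOf (p j)).Infinite ∧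
      i ≤ Nat.count (p j) (l * i + ∑ j, C j + 2) := by
    intro i
    by_contra hcon
    push Not at hcon
    have h1 : ∀ j, Nat.count (p j) (l * i + ∑ j, C j + 2) ≤ i + C j := by
      intro j
      by_cases h : (setOf (p j)).Infinite
      · have := hcon j h
        omega
      · have := hC j h (l * i + ∑ j, C j + 2)
        omega
    have h2 := hsum (l * i + ∑ j, C j + 2)
    have h3 : ∑ j, Nat.count (p j) (l * i + ∑ j, C j + 2) ≤ ∑ j, (i + C j) :=
      Finset.sum_le_sum fun j _ => h1 j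
    rw [Finset.sum_add_distrib, Finset.sum_const, Finset.card_univ, Fintype.card_fin,
      smul_eq_mul] at h3
    omega
  obtain ⟨j₀, hj₀, -⟩ := key 0
  refine ⟨fun j => if (setOf (p j)).Infinite then mrg (p j) x else mrg (p j₀) x, fun j => ?_,
    i₀ + l + ∑ j, C j + 2, fun i hi => ?_⟩
  · by_cases h : (setOf (p j)).Infinite
    · exact ⟨j, by
        show Homog 2 c (if (setOf (p j)).Infinite then mrg (p j) x else mrg (p j₀) x) j
        rw [if_pos h]
        exact mrg_hom hx hred j (hpj j) h⟩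
    · exact ⟨j₀, by
        show Homog 2 c (if (setOf (p j)).Infinite then mrg (p j) x else mrg (p j₀) x) j₀
        rw [if_neg h]
        exact mrg_hom hx hred j₀ (hpj j₀) hj₀⟩
  · obtain ⟨j, hj, hji⟩ := key i
    have h1 : Nat.nth (p j) (i - 1) < l * i + ∑ j, C j + 2 := Nat.nth_lt_of_lt_count (by omega)
    have h2 : i - 1 ≤ Nat.nth (p j) (i - 1) := (Nat.nth_strictMono hj).le_apply
    obtain ⟨n, hn, e⟩ := hi₀ (Nat.nth (p j) (i - 1)) (by omega)
    refine ⟨j, n, hn.trans (le_Sg g ?_), ?_⟩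
    · refine lt_of_lt_of_le h1 ?_
      have h3 : l + ∑ j, C j + 2 ≤ i := by omega
      obtain ⟨S, hS⟩ : ∃ S, S = ∑ j, C j := ⟨_, rfl⟩
      rw [← hS] at h3 ⊢
      have h4 : (l + S + 2) * i ≤ i * i := Nat.mul_le_mul_right i h3
      have h5 : S * 1 ≤ S * i := Nat.mul_le_mul_left S (by omega)
      have h6 : (l + S + 2) * i = l * i + S * i + 2 * i := by ring
      have h7 : (i + 1) * (i + 1) = i * i + 2 * i + 1 := by ring
      omega
    · show (if (setOf (p j)).Infinite then mrg (p j) x else mrg (p j₀) x) n = i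
      rw [if_pos hj, mrg_nth hj e]
      omega

end Pool.Agent.DD
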